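import Pool.Agent.G02.StmtsS

/-! # Squad G02 (MP_ba5221_nt), row T4C: a curve with few points has rank zero. -/

set_option autoImplicit false

namespace Pool.Agent.G02.H10

open Polynomial Pool.Agent.NJ Pool.Agent.GT.F Pool.Agent.G02

/-- A point as an optional pair of coordinates. -/
def toPair {K : Type} [Field K] (W : WeierstrassCurve K) : W.toAffine.Point → Option (K × K)
  | .zero => none
  | .some x y _ => some (x, y)

theorem toPair_inj {K : Type} [Field K] (W : WeierstrassCurve K) :
    Function.Injective (toPair W) := by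
  intro P Q h
  cases P with
  | zero =>
    cases Q with
    | zero => rfl
    | some x y hxy => simp [toPair] at h
  | some x y hxy =>
    cases Q with
    | zero => simp [toPair] at h
    | some x' y' hxy' =>
      simp only [toPair, Option.some.injEq, Prod.mk.injEq] at h
      obtain ⟨h1, h2⟩ := h
      subst h1
      subst h2
      rfl

theorem fin_points {K : Type} [Field K] [CharZero K] (W : WeierstrassCurve K) (e a b : K)
    (hR : Rt1 W e a b) (h : ∀ x y : K, W.toAffine.Equation x y → 2 * y + W.a₁ * x + W.a₃ = 0 ∨
      (x - e) ^ 2 = b) : Finite W.toAffine.Point := by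
  classical
  -- the set of the `x`
  let P : K[X] := (X - C e) * ((X - C e) ^ 2 + C a * (X - C e) + C b) * ((X - C e) ^ 2 - C b)
  have hm1 : (X - C e : K[X]).Monic := monic_X_sub_C e
  have hd1 : (X - C e : K[X]).natDegree = 1 := natDegree_X_sub_C e
  have hm2 : ((X - C e) ^ 2 + C a * (X - C e) + C b : K[X]).Monic := by
    rw [add_assoc]
    refine (hm1.pow 2).add_of_left ?_
    have h1 : (C a * (X - C e) + C b : K[X]).degree ≤ 1 := by
      refine (degree_add_le _ _).trans (max_le ?_ (degree_C_le.trans (by norm_num)))
      refine (degree_mul_le _ _).trans ?_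
      rw [degree_X_sub_C]
      exact (add_le_add_left degree_C_le 1).trans (by norm_num)
    have h2 : ((X - C e) ^ 2 : K[X]).degree = 2 := by
      rw [degree_pow, degree_X_sub_C]; norm_num
    rw [h2]
    exact lt_of_le_of_lt h1 (by norm_num)
  have hm3 : ((X - C e) ^ 2 - C b : K[X]).Monic := by
    refine (hm1.pow 2).sub_of_left ?_
    have h2 : ((X - C e) ^ 2 : K[X]).degree = 2 := by
      rw [degree_pow, degree_X_sub_C]; norm_num
    rw [h2]
    exact lt_of_le_of_lt degree_C_le (by norm_num)
  have hP : P ≠ 0 := ((hm1.mul hm2).mul hm3).ne_zero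
  let Q : K → K[X] := fun x => X ^ 2 + C (W.a₁ * x + W.a₃) * X -
    C (x ^ 3 + W.a₂ * x ^ 2 + W.a₄ * x + W.a₆)
  have hQ : ∀ x, Q x ≠ 0 := by
    intro x hx
    have h1 : (Q x).coeff 2 = 1 := by
      simp only [Q, coeff_sub, coeff_add, coeff_X_pow, if_true, coeff_C_mul, coeff_X, coeff_C]
      norm_num
    rw [hx] at h1
    simp at h1
  have hfin : {xy : K × K | W.toAffine.Equation xy.1 xy.2}.Finite := by
    have hU : (⋃ x ∈ {x : K | P.eval x = 0}, (fun y => (x, y)) '' {y : K | (Q x).eval y = 0}).Finite
        := by
      refine Set.Finite.biUnion ?_ (fun x _ => Set.Finite.image _ ?_)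
      · exact Set.Finite.subset P.roots.toFinset.finite_toSet (fun x hx => by
          simp only [Finset.mem_coe, Multiset.mem_toFinset, mem_roots hP]
          exact hx)
      · exact Set.Finite.subset (Q x).roots.toFinset.finite_toSet (fun y hy => by
          simp only [Finset.mem_coe, Multiset.mem_toFinset, mem_roots (hQ x)]
          exact hy)
    refine hU.subset ?_
    rintro ⟨x, y⟩ hxy
    simp only [Set.mem_ofPred_eq] at hxy
    have heq := (WeierstrassCurve.Affine.equation_iff x y).mp hxy
    simp only [Set.mem_iUnion, Set.mem_image, Set.mem_ofPred_eq, Prod.mk.injEq]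
    refine ⟨x, ?_, y, ?_, rfl, rfl⟩
    · show P.eval x = 0
      simp only [P, eval_mul, eval_sub, eval_add, eval_pow, eval_X, eval_C]
      rcases h x y hxy with h0 | h0
      · obtain ⟨r1, r2, r3⟩ := hR
        simp only [WeierstrassCurve.b₂, WeierstrassCurve.b₄, WeierstrassCurve.b₆] at r1 r2 r3
        have h1 : (2 * y + W.a₁ * x + W.a₃) ^ 2 =
            4 * ((x - e) * ((x - e) ^ 2 + a * (x - e) + b)) := by
          linear_combination 4 * heq + x ^ 2 * r1 + 2 * x * r2 + r3
        rw [h0] at h1
        have h2 : (x - e) * ((x - e) ^ 2 + a * (x - e) + b) = 0 := by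
          have h3 : (4 : K) ≠ 0 := by norm_num
          have h4 : 4 * ((x - e) * ((x - e) ^ 2 + a * (x - e) + b)) = 0 := by
            rw [← h1]; ring
          exact (mul_eq_zero.mp h4).resolve_left h3
        rw [h2, zero_mul]
      · rw [h0, sub_self, mul_zero]
    · show (Q x).eval y = 0
      simp only [Q, eval_mul, eval_sub, eval_add, eval_pow, eval_X, eval_C]
      linear_combination heq
  have hfin2 : (Set.range (toPair W)).Finite := by
    refine Set.Finite.subset ((hfin.image some).insert none) ?_
    rintro _ ⟨P, rfl⟩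
    cases P with
    | zero => exact Set.mem_insert _ _
    | some x y hxy =>
      refine Set.mem_insert_of_mem _ ⟨(x, y), ?_, rfl⟩
      exact hxy.left
  exact (Set.finite_range_iff (toPair_inj W)).mp hfin2

theorem t4c : T4cStmt := by
  classical
  intro K _ _ W e a b hR h
  have := fin_points W e a b hR h
  unfold rk
  rw [rank_eq_zero_iff]
  intro x
  have hx : IsOfFinAddOrder x := isOfFinAddOrder_of_finite x
  obtain ⟨n, hn, hnx⟩ := hx.exists_nsmul_eq_zero
  exact ⟨n, by exact_mod_cast hn.ne', by rw [natCast_zsmul]; exact hnx⟩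

end Pool.Agent.G02.H10
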